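import Pool.Agent.Lib.helper18.Ptak3

namespace Pool.Agent.Results.MP_c470bc_an.Explicit
open Complex Metric Set Filter Topology MeasureTheory Polynomial H18Ptak

/-- operators on the `n`-dimensional complex Hilbert space -/
abbrev Op (n : ℕ) := EuclideanSpace ℂ (Fin n) →L[ℂ] EuclideanSpace ℂ (Fin n)

/-- `F = f(T)`: the Taylor series of `f` at `0`, evaluated at `T`, converges to `F`. -/
def FC {n : ℕ} (f : ℂ → ℂ) (T F : Op n) : Prop :=
  HasSum (fun k : ℕ => (iteratedDeriv k f 0 / k.factorial) • T ^ k) F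

/-- the contractions annihilated by `p` -/
def A (n : ℕ) (p : ℂ[X]) : Set (Op n) := {T | ‖T‖ ≤ 1 ∧ aeval T p = 0}

/-- `S` is the nilpotent shift `(u₀, …, u_m) ↦ (0, u₀, …, u_{m-1})`. -/
def IsShift {m : ℕ} (S : Op (m + 1)) : Prop :=
  ∀ u, S u 0 = 0 ∧ ∀ j : Fin m, S u j.succ = u j.castSucc

/-- `T (1 + conj a • S) = S + a` -/
def Mob {n : ℕ} (a : ℂ) (S T : Op n) : Prop := T * (1 + (starRingEnd ℂ) a • S) = S + a • 1

theorem main' {r s : ℝ} (hr0 : 0 < r) (hrs : r < s) (hs : s < 1) (m : ℕ) (a : ℕ → ℂ)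
    (ha : Summable fun k => ‖a k‖ * s ^ k) :
    ∃ c : ℂ, ‖c‖ = r ∧ ∃ F₀, HasSum (fun k => a k • Tm m c ^ k) F₀ ∧
      ∀ p : ℂ[X], p.degree = (m + 1 : ℕ) → (∀ z, p.IsRoot z → ‖z‖ ≤ r) →
        ∀ T : E (m + 1) →L[ℂ] E (m + 1), ‖T‖ ≤ 1 → aeval T p = 0 →
          ∃ F, HasSum (fun k => a k • T ^ k) F ∧ ‖F‖ ≤ ‖F₀‖ := by
  have hr := hrs.trans hs
  obtain ⟨K, hK⟩ := pow_bound hr0 hrs hs m
  have hu := ha.mul_left K
  set u : ℕ → ℝ := fun k => K * (‖a k‖ * s ^ k) with hu'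
  have hb : ∀ T : E (m + 1) →L[ℂ] E (m + 1), (∀ k, ‖T ^ k‖ ≤ K * s ^ k) →
      ∀ k, ‖a k • T ^ k‖ ≤ u k := by
    intro T hT k
    rw [norm_smul, hu']
    have := mul_le_mul_of_nonneg_left (hT k) (norm_nonneg (a k))
    simp only; linarith
  have hT := cTm m
  obtain ⟨c, hc, hmax⟩ := (isCompact_sphere (0:ℂ) r).exists_isMaxOn
    (NormedSpace.sphere_nonempty.2 hr0.le) (f := fun c => ‖∑' k, a k • Tm m c ^ k‖)
    (ContinuousOn.norm (continuousOn_tsum (fun k => by fun_prop) hu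
      fun k c hc => hb _ (hK c (le_of_eq (by simpa using hc))) k))
  have hc' : ‖c‖ = r := by simpa using hc
  refine ⟨c, hc', _, (hu.of_norm_bounded (hb _ (hK c hc'.le))).hasSum, fun p hp hp2 T hT1 hT2 => ?_⟩
  have h1 := hu.of_norm_bounded (hb T fun k => by
    simpa using lemC hr0 hr m (X ^ k) (fun c hc => by simpa using hK c hc k) p hp hp2 T hT1 hT2)
  refine ⟨_, h1.hasSum, ?_⟩
  have h2 := (tendsto_const_nhds (x := ‖∑' k, a k • Tm m c ^ k‖)).add (tendsto_sum_nat_add u)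
  rw [add_zero] at h2
  refine le_of_tendsto_of_tendsto' h1.hasSum.tendsto_sum_nat.norm h2 fun N => ?_
  have hf : ∀ T : E (m + 1) →L[ℂ] E (m + 1), aeval T (∑ k ∈ Finset.range N, monomial k (a k)) =
      ∑ k ∈ Finset.range N, a k • T ^ k := by
    intro T; simp [aeval_monomial, Algebra.algebraMap_eq_smul_one]
  obtain ⟨d, hd, hd2⟩ := lemD hr0 hr m (∑ k ∈ Finset.range N, monomial k (a k))
  have h3 := lemC hr0 hr m _ hd2 p hp hp2 T hT1 hT2
  rw [hf, hf] at h3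
  refine h3.trans ?_
  have h4 := hb _ (hK d hd.le)
  rw [← eq_sub_iff_add_eq.2 ((hu.of_norm_bounded h4).sum_add_tsum_nat_add N) |>.symm]
  refine (norm_sub_le _ _).trans (add_le_add (hmax (by simpa using hd)) ?_)
  exact tsum_of_norm_bounded ((summable_nat_add_iff N).2 hu).hasSum fun k => h4 _


theorem result (m : ℕ) (p : ℝ) (hp0 : 0 < p) (hp : p < 1) (ψ : ℂ → ℂ) (U : Set ℂ) (hU : IsOpen U)
    (hpU : closedBall 0 p ⊆ U) (hψ : DifferentiableOn ℂ ψ U) :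
    ∃ a : ℂ, ‖a‖ = p ∧ ∃ S T₀ F₀ : Op (m + 1), IsShift S ∧ Mob a S T₀ ∧
      T₀ ∈ A (m + 1) ((X - C a) ^ (m + 1)) ∧ FC ψ T₀ F₀ ∧
      ∀ φ : ℂ[X], 0 < φ.degree → (∀ z, φ.IsRoot z → ‖z‖ ≤ p) →
        ∀ T ∈ A (m + 1) φ, ∃ F, FC ψ T F ∧ ‖F‖ ≤ ‖F₀‖ := by
  obtain ⟨δ, hδ, hδU⟩ := (isCompact_closedBall (0:ℂ) p).exists_thickening_subset_open hU hpU
  rw [thickening_closedBall hδ hp0.le] at hδU
  have h1 : p < min (δ + p) 1 := lt_min (by linarith) hp
  obtain ⟨s, hs1, hs2⟩ := exists_between h1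
  have hs0 : 0 < s := hp0.trans hs1
  obtain ⟨c, hc, F₀, h1, h2⟩ := main' hp0 hs1 (hs2.trans_le (min_le_right _ _)) m
    (fun k => iteratedDeriv k ψ 0 / k.factorial) (by
    have := (Complex.hasSum_taylorSeries_on_ball (hψ.mono hδU) (z := s)
      (by simpa [abs_of_pos hs0] using hs2.trans_le (min_le_left _ _))).summable
    rw [← summable_norm_iff] at this
    refine this.congr fun k => ?_
    simp [abs_of_pos hs0]; ring)
  refine ⟨c, hc, J m, Tm m c, F₀, fun u => ⟨rfl, fun j => rfl⟩, ?_,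
    ⟨Tm_le m (hc.trans_lt hp), Tm_aeval m c⟩, h1, fun φ _ hφ T hT => ?_⟩
  · have h3 : Commute (J m) (R m c) :=
      Commute.sum_right _ _ _ fun k _ => ((Commute.refl _).smul_right _).pow_right _
    have h4 : Commute (1 + (starRingEnd ℂ) c • J m) (R m c) :=
      (Commute.one_left _).add_left (h3.smul_left _)
    unfold Mob Tm
    rw [mul_assoc, ← h4.eq, R_inv, mul_one]
  · have h0 : ∀ q : ℂ[X], aeval (T : E (m + 1) →ₗ[ℂ] E (m + 1)) q =
        ((aeval T q : E (m + 1) →L[ℂ] E (m + 1)) : E (m + 1) →ₗ[ℂ] E (m + 1)) := fun q =>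
      aeval_algHom_apply (Module.End.toContinuousLinearMap (𝕜 := ℂ) (E (m + 1))).symm T q
    refine h2 (T : E (m + 1) →ₗ[ℂ] E (m + 1)).charpoly ?_ (fun z hz => hφ z ?_) T hT.1 ?_
    · rw [degree_eq_natDegree (LinearMap.charpoly_monic _).ne_zero, LinearMap.charpoly_natDegree]
      simp
    · obtain ⟨v, hv⟩ := ((Module.End.hasEigenvalue_iff_isRoot_charpoly _ _).2 hz).exists_hasEigenvector
      have h5 := Module.End.aeval_apply_of_hasEigenvector (p := φ) hv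
      rw [h0, hT.2] at h5
      exact (smul_eq_zero.1 h5.symm).resolve_right hv.2
    · apply ContinuousLinearMap.coe_injective
      rw [← h0]; exact LinearMap.aeval_self_charpoly _

end Pool.Agent.Results.MP_c470bc_an.Explicit
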